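import Mathlib.Algebra.Group.Subgroup.Basic
import Mathlib.GroupTheory.OrderOfElement
import Mathlib.Algebra.BigOperators.Group.Finset.Basic
import Mathlib.Algebra.BigOperators.Ring.Finset
import Mathlib.Algebra.Field.Basic
import Mathlib.Algebra.Ring.Parity
import Mathlib.Algebra.BigOperators.Group.Finset.Piecewise
import Mathlib.Tactic.Ring
import Mathlib.Tactic.FieldSimp
import Mathlib.Tactic.Group
import Mathlib.Tactic.LinearCombination
import Mathlib.Tactic.Linarith

/-!
# The kappa computation and the place lemma (chapter V)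
-/

set_option autoImplicit false

namespace Pool.Agent.Lib.MP_688fd0_co.SQ2.H22

open Finset

/-- The voltage of the `b`-rungs is not exact: if it is, then `n₀ n_b (χ a - 1) = 0`. -/
theorem kappa {G F : Type*} [Group G] [Field F] (Y : Set G) (a b : G) (χ : G →* F) (u : G → F)
    (nb : F) (hua : ∀ x, u (x * a) = u x) (hYa : ∀ y ∈ Y, y * a ∈ Y)
    (hYc : ∀ y ∈ Y, y * a * (b * a⁻¹ * b⁻¹) ∈ Y)
    (hu : ∀ y ∈ Y, u (y * b) - u y = χ y * nb) (y₀ : G) (hy₀ : y₀ ∈ Y) (n₀ : ℕ)
    (hκ : (b⁻¹ * a * b * a⁻¹) ^ n₀ = 1) : (n₀ : F) * nb * (χ a - 1) = 0 := by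
  have hχ0 : ∀ x, χ x ≠ 0 := fun x h => by
    have h1 : χ x * χ x⁻¹ = 1 := by rw [← map_mul, mul_inv_cancel, map_one]
    rw [h, zero_mul] at h1
    exact zero_ne_one h1
  have hχinv : ∀ x, χ x⁻¹ = (χ x)⁻¹ := fun x => by
    have h1 : χ x * χ x⁻¹ = 1 := by rw [← map_mul, mul_inv_cancel, map_one]
    exact eq_inv_of_mul_eq_one_right h1
  have hua' : ∀ x, u (x * a⁻¹) = u x := fun x => by
    have := hua (x * a⁻¹)
    rw [inv_mul_cancel_right] at this
    exact this.symm
  have key : ∀ k : ℕ, ∃ y ∈ Y, χ y = χ y₀ ∧ y * b = y₀ * b * (b⁻¹ * a * b * a⁻¹) ^ k ∧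
      u (y * b) - u (y₀ * b) = k * (χ y₀ * nb * (χ a - 1)) := by
    intro k
    induction k with
    | zero => exact ⟨y₀, hy₀, rfl, by simp, by simp⟩
    | succ k ih =>
      obtain ⟨y, hy, h1, h2, h3⟩ := ih
      refine ⟨y * a * (b * a⁻¹ * b⁻¹), hYc y hy, ?_, ?_, ?_⟩
      · rw [map_mul, map_mul, map_mul, map_mul, hχinv, hχinv, h1]
        field_simp [hχ0 a, hχ0 b]
      · rw [pow_succ, ← mul_assoc (y₀ * b), ← h2]
        group
      · have e1 : y * a * (b * a⁻¹ * b⁻¹) * b = y * a * b * a⁻¹ := by group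
        have e2 := hu (y * a) (hYa y hy)
        have e3 := hu y hy
        rw [e1, hua']
        rw [map_mul, hua] at e2
        rw [h1] at e2 e3
        push_cast
        linear_combination h3 + e2 - e3
  obtain ⟨y, _, _, h2, h3⟩ := key n₀
  rw [hκ, mul_one] at h2
  rw [h2, sub_self] at h3
  have h4 : χ y₀ * ((n₀ : F) * nb * (χ a - 1)) = 0 := by
    linear_combination -h3
  exact (mul_eq_zero.1 h4).resolve_left (hχ0 _)

/-- A sum of an odd number of `±1` is odd. -/
theorem odd_sum {ι : Type*} (s : Finset ι) (hs : Odd s.card) (d : ι → ℤ)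
    (hd : ∀ i ∈ s, d i = 1 ∨ d i = -1) : Odd (∑ i ∈ s, d i) := by
  have h1 : ∑ i ∈ s, d i = (s.card : ℤ) + ∑ i ∈ s, (d i - 1) := by
    rw [Finset.sum_sub_distrib]
    simp
  have h2 : Even (∑ i ∈ s, (d i - 1)) := by
    rw [even_iff_two_dvd]
    refine Finset.dvd_sum (fun i hi => ?_)
    rcases hd i hi with h | h <;> rw [h]
    · exact ⟨0, by norm_num⟩
    · exact ⟨-1, by norm_num⟩
  rw [h1]
  exact Odd.add_even (by exact_mod_cast hs) h2

/-- PLACE: for every `±1` colouring of a group of odd order some place has non-zero sum. -/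
theorem place {Q : Type*} [Group Q] (N : Subgroup Q) [N.Normal] [Fintype N]
    (hN : Odd (Fintype.card N)) (K : Subgroup Q) [Fintype K] (hK : K ≤ N) (b : Q)
    (hb : Odd (orderOf b)) (d : Q → ℤ) (hd : ∀ x, d x = 1 ∨ d x = -1) :
    ∃ x, ∑ k : K, (d (x * k) + d (x * k * b)) ≠ 0 := by
  classical
  by_contra hcon
  push Not at hcon
  let f : Q → ℤ := fun y => ∑ n : N, d (y * n)
  have h1 : ∀ y, f (y * b) = - f y := by
    intro y
    have h2 : ∑ n : N, ∑ k : K, (d (y * n * k) + d (y * n * k * b)) = 0 :=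
      Finset.sum_eq_zero (fun n _ => hcon (y * n))
    rw [Finset.sum_comm] at h2
    have h3 : ∀ k : K, ∑ n : N, (d (y * n * k) + d (y * n * k * b)) = f y + f (y * b) := by
      intro k
      rw [Finset.sum_add_distrib]
      congr 1
      · refine Fintype.sum_equiv (Equiv.mulRight (⟨k, hK k.2⟩ : N)) _ _ (fun n => ?_)
        simp [mul_assoc]
      · let e : N ≃ N :=
          { toFun := fun n => ⟨b⁻¹ * (n * k) * b, by
              have := ‹N.Normal›.conj_mem (n * k) (N.mul_mem n.2 (hK k.2)) b⁻¹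
              simpa using this⟩
            invFun := fun n => ⟨b * n * b⁻¹ * (k : Q)⁻¹, N.mul_mem (‹N.Normal›.conj_mem n n.2 b)
              (N.inv_mem (hK k.2))⟩
            left_inv := fun n => by
              apply Subtype.ext
              simp only
              group
            right_inv := fun n => by
              apply Subtype.ext
              simp only
              group }
        refine Fintype.sum_equiv e _ _ (fun n => ?_)
        congr 1
        simp only [e, Equiv.coe_fn_mk]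
        group
    rw [Finset.sum_congr rfl (fun k _ => h3 k), Finset.sum_const, nsmul_eq_mul] at h2
    rcases mul_eq_zero.1 h2 with h | h
    · exfalso
      have : 0 < (univ : Finset K).card := Finset.card_pos.2 ⟨1, mem_univ _⟩
      have h' : ((univ : Finset K).card : ℤ) ≠ 0 := by exact_mod_cast this.ne'
      exact h' h
    · linarith
  have h2 : ∀ j : ℕ, f (b ^ j) = (-1) ^ j * f 1 := by
    intro j
    induction j with
    | zero => simp
    | succ j ih => rw [pow_succ, h1, ih, pow_succ]; ring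
  have h3 := h2 (orderOf b)
  rw [pow_orderOf_eq_one, hb.neg_one_pow] at h3
  have h4 : f 1 = 0 := by linarith
  have h5 : Odd (f 1) := odd_sum univ (by simpa using hN) _ (fun n _ => hd _)
  rw [h4] at h5
  exact absurd h5 (by decide)

end Pool.Agent.Lib.MP_688fd0_co.SQ2.H22
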